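import Pool.Agent.H7.TRI.Stmts

/-!
# Board `tri`, row FIN (helper62): the final statement
-/

set_option autoImplicit false
set_option linter.unusedVariables false

open Finset

namespace Pool.TRI

private theorem FIN_nb {n : ℕ} (H : SimpleGraph (Fin n)) (v : Fin n) :
    (nb H v).card = (H.neighborSet v).ncard := by
  have h1 : (↑(nb H v) : Set (Fin n)) = H.neighborSet v := by
    ext w
    rw [Finset.mem_coe, mem_nb]
    rfl
  rw [← h1, Set.ncard_coe_finset]

private theorem FIN_hyp {n Δ ω : ℕ} (H : SimpleGraph (Fin n)) (hΔ : 18 ≤ Δ) (hω : ω ≤ Δ + 1)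
    (hm : 1 ≤ Δ + 1 - ω) (hd : ∀ v, (H.neighborSet v).ncard ≤ Δ) (hc : H.CliqueFree (ω + 1)) :
    Hyp H Δ (Δ + 1 - ω) := by
  refine ⟨fun v => by rw [FIN_nb]; exact hd v, hΔ, hm, ?_⟩
  intro K hK
  by_contra hcon
  have h1 : ω + 1 ≤ K.card := by omega
  refine SimpleGraph.CliqueFree.mono h1 hc K ⟨?_, rfl⟩
  intro u hu v hv huv
  exact hK u hu v hv huv

private theorem FIN_ex (hTRI : TRIStmt) {n Δ : ℕ} (H : SimpleGraph (Fin n)) :
    ∑ v, ex H Δ v = (n : ℤ) * ((Δ : ℤ) * ((Δ : ℤ) - 2)) -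
      6 * ({s : Finset (Fin n) | H.IsNClique 3 s}.ncard : ℤ) := by
  have h1 := hTRI n H
  have h2 : ((6 * {s : Finset (Fin n) | H.IsNClique 3 s}.ncard : ℕ) : ℤ) =
      ((∑ v, ∑ w ∈ nb H v, cd H v w : ℕ) : ℤ) := by rw [h1]
  push_cast at h2
  unfold ex
  rw [Finset.sum_sub_distrib, Finset.sum_const, Finset.card_univ, Fintype.card_fin,
    nsmul_eq_mul, h2]

private theorem FIN_triv (hTRI : TRIStmt) {n Δ : ℕ} (H : SimpleGraph (Fin n))
    (hd : ∀ v, (H.neighborSet v).ncard ≤ Δ) :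
    6 * {s : Finset (Fin n) | H.IsNClique 3 s}.ncard ≤ n * (Δ * (Δ - 1)) := by
  rw [hTRI n H]
  have h1 : ∀ v : Fin n, ∑ w ∈ nb H v, cd H v w ≤ Δ * (Δ - 1) := by
    intro v
    have h2 : ∀ w ∈ nb H v, cd H v w ≤ Δ - 1 := by
      intro w hw
      have h3 : nb H v ∩ nb H w ⊆ (nb H v).erase w := by
        intro u hu
        rw [mem_inter] at hu
        rw [mem_erase]
        refine ⟨?_, hu.1⟩
        rintro rfl
        exact self_notMem_nb u hu.2
      have h4 := card_le_card h3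
      rw [card_erase_of_mem hw, FIN_nb] at h4
      have h5 := hd v
      unfold cd
      omega
    calc ∑ w ∈ nb H v, cd H v w ≤ ∑ _w ∈ nb H v, (Δ - 1) := Finset.sum_le_sum h2
      _ = (nb H v).card * (Δ - 1) := by rw [Finset.sum_const, smul_eq_mul]
      _ ≤ Δ * (Δ - 1) := by
        refine Nat.mul_le_mul_right _ ?_
        rw [FIN_nb]
        exact hd v
  calc ∑ v, ∑ w ∈ nb H v, cd H v w ≤ ∑ _v : Fin n, Δ * (Δ - 1) :=
        Finset.sum_le_sum fun v _ => h1 v
    _ = n * (Δ * (Δ - 1)) := by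
      rw [Finset.sum_const, Finset.card_univ, Fintype.card_fin, smul_eq_mul]

theorem FIN_thm (hGLO : GLOStmt) (hTRI : TRIStmt) (hTU1 : TU1Stmt) (hTU2 : TU2Stmt) :
    FINStmt := by
  intro Δ ω hΔ hω
  constructor
  · intro h6
    obtain ⟨m, hm⟩ : ∃ m, m = Δ + 1 - ω := ⟨_, rfl⟩
    rw [← hm] at h6 ⊢
    obtain ⟨D, rfl⟩ : ∃ D, Δ = D + 1 := ⟨Δ - 1, by omega⟩
    rw [Nat.add_sub_cancel] at h6
    have h2ω : D + 1 + 1 ≤ 2 * ω := by
      by_contra hcon
      have h7 : D + 3 ≤ 2 * m := by omega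
      nlinarith
    have hT := hTU1 (D + 1) ω (by omega) hω h2ω
    rw [← hm] at hT
    refine ⟨?_, ?_, hT, ?_⟩
    · intro v
      rw [← FIN_nb]
      have h8 : nb (SimpleGraph.turanGraph (D + 1 + 1) ω) v ⊆ univ.erase v := by
        intro w hw
        rw [mem_erase]
        exact ⟨fun h => self_notMem_nb v (h ▸ hw), mem_univ _⟩
      have h9 := card_le_card h8
      rw [card_erase_of_mem (mem_univ _), card_univ, Fintype.card_fin] at h9
      omega
    · exact SimpleGraph.turanGraph_cliqueFree (by omega)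
    · intro n hn H hd hc
      rw [Nat.add_sub_cancel] at hT
      have hTz : 6 * ({s : Finset (Fin (D + 1 + 1)) |
          (SimpleGraph.turanGraph (D + 1 + 1) ω).IsNClique 3 s}.ncard : ℤ) + 6 * (m : ℤ) * D =
          ((D : ℤ) + 1 + 1) * (D + 1) * D := by exact_mod_cast hT
      have hfin : (6 : ℤ) * (({s : Finset (Fin n) | H.IsNClique 3 s}.ncard : ℤ) *
          ((D : ℤ) + 1 + 1)) ≤ 6 * (({s : Finset (Fin (D + 1 + 1)) |
          (SimpleGraph.turanGraph (D + 1 + 1) ω).IsNClique 3 s}.ncard : ℤ) * n) := by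
        have h5 : (6 : ℤ) * (({s : Finset (Fin (D + 1 + 1)) |
            (SimpleGraph.turanGraph (D + 1 + 1) ω).IsNClique 3 s}.ncard : ℤ) * n) =
            n * (((D : ℤ) + 1 + 1) * (D + 1) * D - 6 * (m : ℤ) * D) := by
          rw [← hTz]
          ring
        rw [h5]
        rcases Nat.eq_zero_or_pos m with hm0 | hm0
        · have h10 := FIN_triv hTRI H hd
          rw [Nat.add_sub_cancel] at h10
          have h11 : (6 : ℤ) * ({s : Finset (Fin n) | H.IsNClique 3 s}.ncard : ℤ) ≤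
              n * (((D : ℤ) + 1) * D) := by exact_mod_cast h10
          have h12 : (0 : ℤ) ≤ (D : ℤ) + 1 + 1 := by positivity
          have h13 := mul_le_mul_of_nonneg_right h11 h12
          rw [hm0]
          push_cast
          linarith
        · have hyp := FIN_hyp H hΔ hω (by omega) hd hc
          rw [← hm] at hyp
          have h14 := hGLO (Fin n) H (D + 1) m hyp
          rw [FIN_ex hTRI, Fintype.card_fin] at h14
          have h15 : (6 * (m : ℤ) * (((D + 1 : ℕ) : ℤ) - 1) -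
              ((D + 1 : ℕ) : ℤ) * (((D + 1 : ℕ) : ℤ) + 1)) ≤ 0 := by
            have h16 : (6 : ℤ) * m * D ≤ ((D : ℤ) + 1) * (D + 1 + 1) := by exact_mod_cast h6
            push_cast
            linarith
          rw [min_eq_right h15] at h14
          push_cast at h14
          linarith
      have hfin' : 6 * ({s : Finset (Fin n) | H.IsNClique 3 s}.ncard * (D + 1 + 1)) ≤
          6 * ({s : Finset (Fin (D + 1 + 1)) |
            (SimpleGraph.turanGraph (D + 1 + 1) ω).IsNClique 3 s}.ncard * n) := by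
        exact_mod_cast hfin
      omega
  · intro h6 hev h2ω
    obtain ⟨a, ha⟩ := hev
    have ha' : Δ = 2 * a := by omega
    subst ha'
    have hdiv : 2 * a / 2 + 1 = a + 1 := by omega
    rw [hdiv]
    obtain ⟨hT, hdeg⟩ := hTU2 a (by omega)
    refine ⟨hdeg, ?_, ?_, ?_⟩
    · exact SimpleGraph.CliqueFree.mono (by omega)
        (SimpleGraph.turanGraph_cliqueFree (n := 2 * a + 2) (r := a + 1) (by omega))
    · exact hT
    · intro n hn H hd hc
      obtain ⟨m, hm⟩ : ∃ m, m = 2 * a + 1 - ω := ⟨_, rfl⟩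
      have hm1 : 1 ≤ m := by
        rcases Nat.eq_zero_or_pos m with hm0 | hm0
        · exfalso
          rw [← hm, hm0] at h6
          nlinarith
        · exact hm0
      have hyp := FIN_hyp H hΔ hω (by omega) hd hc
      rw [← hm] at hyp h6
      have h14 := hGLO (Fin n) H (2 * a) m hyp
      rw [FIN_ex hTRI, Fintype.card_fin] at h14
      have h15 : 0 ≤ (6 * (m : ℤ) * (((2 * a : ℕ) : ℤ) - 1) -
          ((2 * a : ℕ) : ℤ) * (((2 * a : ℕ) : ℤ) + 1)) := by
        have h16 : (((2 * a) * (2 * a + 1) : ℕ) : ℤ) ≤ ((6 * m * (2 * a - 1) : ℕ) : ℤ) := by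
          exact_mod_cast h6
        rw [Nat.cast_mul (6 * m), Nat.cast_sub (by omega : 1 ≤ 2 * a)] at h16
        push_cast at h16 ⊢
        linarith
      rw [min_eq_left h15, mul_zero] at h14
      have h17 : (0 : ℤ) < ((2 * a : ℕ) : ℤ) + 1 := by positivity
      have h18 : (0 : ℤ) ≤ (n : ℤ) * (((2 * a : ℕ) : ℤ) * (((2 * a : ℕ) : ℤ) - 2)) -
          6 * ({s : Finset (Fin n) | H.IsNClique 3 s}.ncard : ℤ) := by
        by_contra hneg
        push Not at hneg
        have := mul_neg_of_pos_of_neg h17 hneg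
        linarith
      have hTz : (6 : ℤ) * ({s : Finset (Fin (2 * a + 2)) |
          (SimpleGraph.turanGraph (2 * a + 2) (a + 1)).IsNClique 3 s}.ncard : ℤ) =
          (2 * (a : ℤ) + 2) * (2 * a) * (2 * a - 2) := by
        have h19 : ((6 * {s : Finset (Fin (2 * a + 2)) |
            (SimpleGraph.turanGraph (2 * a + 2) (a + 1)).IsNClique 3 s}.ncard : ℕ) : ℤ) =
            (((2 * a + 2) * (2 * a) * (2 * a - 2) : ℕ) : ℤ) := by rw [hT]
        rw [Nat.cast_mul ((2 * a + 2) * (2 * a)), Nat.cast_sub (by omega : 2 ≤ 2 * a)] at h19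
        push_cast at h19
        exact h19
      have hfin : (6 : ℤ) * (({s : Finset (Fin n) | H.IsNClique 3 s}.ncard : ℤ) *
          (2 * (a : ℤ) + 2)) ≤ 6 * (({s : Finset (Fin (2 * a + 2)) |
          (SimpleGraph.turanGraph (2 * a + 2) (a + 1)).IsNClique 3 s}.ncard : ℤ) * n) := by
        have h5 : (6 : ℤ) * (({s : Finset (Fin (2 * a + 2)) |
            (SimpleGraph.turanGraph (2 * a + 2) (a + 1)).IsNClique 3 s}.ncard : ℤ) * n) =
            n * ((2 * (a : ℤ) + 2) * (2 * a) * (2 * a - 2)) := by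
          rw [← hTz]
          ring
        rw [h5]
        push_cast at h18
        have h20 : (0 : ℤ) ≤ 2 * (a : ℤ) + 2 := by positivity
        have h21 := mul_nonneg h18 h20
        linarith
      have hfin' : 6 * ({s : Finset (Fin n) | H.IsNClique 3 s}.ncard * (2 * a + 2)) ≤
          6 * ({s : Finset (Fin (2 * a + 2)) |
            (SimpleGraph.turanGraph (2 * a + 2) (a + 1)).IsNClique 3 s}.ncard * n) := by
        exact_mod_cast hfin
      omega

end Pool.TRI
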